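import Pool.Agent.W26.CT.Stm

/-!
# CT-HB: Hahn-Banach for the projective seminorm
-/
set_option autoImplicit false

namespace Pool.Agent.W782.CT

/-- a supporting functional of a seminorm -/
theorem exists_support {M : Type*} [AddCommGroup M] [Module ℝ M] (p : Seminorm ℝ M) (u : M) :
    ∃ g : M →ₗ[ℝ] ℝ, g u = p u ∧ ∀ v, |g v| ≤ p v := by
  by_cases h0 : p u = 0
  · refine ⟨0, ?_, fun v => ?_⟩
    · rw [h0, LinearMap.zero_apply]
    · rw [LinearMap.zero_apply, abs_zero]
      exact apply_nonneg p v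
  · have hu : u ≠ 0 := by
      rintro rfl
      exact h0 (map_zero p)
    let f : M →ₗ.[ℝ] ℝ := LinearPMap.mkSpanSingleton u (p u) hu
    have hf : ∀ x : f.domain, f x ≤ p x := by
      rintro ⟨x, hx⟩
      obtain ⟨c, rfl⟩ := Submodule.mem_span_singleton.1 hx
      have h1 : f ⟨c • u, hx⟩ = c • p u := LinearPMap.mkSpanSingleton'_apply u (p u) _ c _
      rw [h1, smul_eq_mul]
      change c * p u ≤ p (c • u)
      rw [map_smul_eq_mul, Real.norm_eq_abs]
      exact mul_le_mul_of_nonneg_right (le_abs_self c) (apply_nonneg p u)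
    obtain ⟨g, hg, hl⟩ := Module.Dual.exists_extension_of_le_seminorm_real f.domain f.toFun
      (p := p) hf
    refine ⟨g, ?_, hl⟩
    have hm : u ∈ f.domain := Submodule.mem_span_singleton_self u
    have h2 := hg ⟨u, hm⟩
    have h3 : f ⟨u, hm⟩ = p u := LinearPMap.mkSpanSingleton_apply _ _ hu (p u)
    rw [← h3]
    exact h2

theorem hb : Pool.Agent.W26.CT.S_HB := by
  intro E _ _ u
  exact exists_support PiTensorProduct.projectiveSeminorm u

end Pool.Agent.W782.CT
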